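import Mathlib

/-!
# Project MU: definitions and package statements

`E κ F H`: the continuous homomorphisms from `H ∩ ker κ` to `R` which vanish on the groups of the family
`F` and are equivariant under `H`, which acts on `R` through the character `κ`.
-/

set_option autoImplicit false

namespace Pool.Agent.U10.Mu

open Module

/-- The continuous homomorphisms `f` from `H ∩ ker κ` to `R` which vanish on the groups of the family `F`
and satisfy `f(σ x σ⁻¹) = κ(σ) f(x)` for all `σ` in `H`. -/
def E {R G : Type} [CommRing R] [TopologicalSpace R] [IsTopologicalRing R] [Group G]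
    [TopologicalSpace G] (κ : G →* R) (F : Set (Subgroup G)) (H : Subgroup G) :
    Submodule R (↥(H ⊓ κ.ker) → R) where
  carrier := {f | (∀ x y, f (x * y) = f x + f y) ∧ Continuous f ∧
    (∀ D ∈ F, ∀ x : ↥(H ⊓ κ.ker), (x : G) ∈ D → f x = 0) ∧
    ∀ σ ∈ H, ∀ x y : ↥(H ⊓ κ.ker), (y : G) = σ * x * σ⁻¹ → f y = κ σ * f x}
  add_mem' := by
    rintro f g ⟨h1, h2, h3, h4⟩ ⟨g1, g2, g3, g4⟩
    refine ⟨fun x y => ?_, h2.add g2, fun D hD x hx => ?_, fun σ hσ x y hxy => ?_⟩
    · simp only [Pi.add_apply, h1, g1]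
      ring
    · simp only [Pi.add_apply, h3 D hD x hx, g3 D hD x hx, add_zero]
    · simp only [Pi.add_apply, h4 σ hσ x y hxy, g4 σ hσ x y hxy]
      ring
  zero_mem' := ⟨fun x y => by simp, continuous_const, fun D hD x hx => rfl,
    fun σ hσ x y hxy => by simp⟩
  smul_mem' := by
    rintro c f ⟨h1, h2, h3, h4⟩
    refine ⟨fun x y => ?_, h2.const_smul c, fun D hD x hx => ?_, fun σ hσ x y hxy => ?_⟩
    · simp only [Pi.smul_apply, h1, smul_eq_mul]
      ring
    · simp only [Pi.smul_apply, h3 D hD x hx, smul_zero]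
    · simp only [Pi.smul_apply, h4 σ hσ x y hxy, smul_eq_mul]
      ring

/-- The fixed elements of `H`. -/
def Fx {R G S : Type} [CommRing R] [Group G] [AddCommGroup S] [Module R S]
    (ρ : G →* Module.End R S) (H : Subgroup G) : Submodule R S where
  carrier := {x | ∀ h ∈ H, ρ h x = x}
  add_mem' := by
    intro x y hx hy h hh
    rw [map_add, hx h hh, hy h hh]
  zero_mem' := by
    intro h _
    rw [map_zero]
  smul_mem' := by
    intro c x hx h hh
    rw [map_smul, hx h hh]

/-- Package A: the modules `E κ F H` for `H ≥ N` have the ranks of the fixed elements of one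
representation of `G / N`. -/
def S_A : Prop :=
  ∀ (R G : Type) [CommRing R] [IsDomain R] [TopologicalSpace R] [IsTopologicalRing R] [Group G]
    [TopologicalSpace G] [IsTopologicalGroup G] (κ : G →* R) (F : Set (Subgroup G)),
    (∀ D ∈ F, ∀ g : G, ∃ D' ∈ F, ∀ σ ∈ D, g⁻¹ * σ * g ∈ D') →
    ∀ N : Subgroup G, N.Normal → IsOpen (N : Set G) → N.index ≠ 0 → (N.index : R) ≠ 0 →
      ∃ (S : Type) (_ : AddCommGroup S) (_ : Module R S) (_ : IsTorsionFree R S)
        (ρ : G →* Module.End R S), (∀ g ∈ N, ρ g = 1) ∧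
        ∀ H : Subgroup G, N ≤ H → Module.rank R (E κ F H) = Module.rank R (Fx ρ H)

/-- Package C: a representation of rank `c` over `F_p[[T]]` of a group of order prime to `p` embeds the
group in `GL_c(F_p)`. -/
def S_C : Prop :=
  ∀ (p : ℕ) [Fact p.Prime] (G S : Type) [Group G] [AddCommGroup S]
    [Module (PowerSeries (ZMod p)) S] [IsTorsionFree (PowerSeries (ZMod p)) S]
    (ρ : G →* Module.End (PowerSeries (ZMod p)) S) (N : Subgroup G), N.Normal → N.index ≠ 0 →
    ¬ p ∣ N.index → (∀ g, ρ g = 1 ↔ g ∈ N) →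
    ∀ c : ℕ, Module.rank (PowerSeries (ZMod p)) S = c →
      ∃ φ : G →* GL (Fin c) (ZMod p), φ.ker = N

end Pool.Agent.U10.Mu
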