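import Mathlib
import Pool.Agent.U10.Mu.Stm

/-!
# Project MU, package C: a group of order prime to `p` acting on a lattice over `F_p[[T]]` embeds in
`GL_c(F_p)`.
-/

set_option autoImplicit false

namespace Pool.Agent.U10.Mu.C

open Module

variable {p : ℕ} [Fact p.Prime]

/-- The ring `F_p[[T]]`. -/
abbrev R (p : ℕ) : Type := PowerSeries (ZMod p)

/-- The reduction of matrices. -/
noncomputable def red (p : ℕ) [Fact p.Prime] (c : ℕ) : Matrix (Fin c) (Fin c) (R p) →+*
    Matrix (Fin c) (Fin c) (ZMod p) :=
  (PowerSeries.constantCoeff (R := ZMod p)).mapMatrix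

/-- A matrix over `F_p[[T]]` of finite order prime to `p` which is trivial modulo `T` is trivial. -/
theorem eq_one_of_map (c m : ℕ) (hm : ¬ p ∣ m) (B : Matrix (Fin c) (Fin c) (R p)) (h : B ^ m = 1)
    (hB : red p c B = 1) : B = 1 := by
  set Y : Matrix (Fin c) (Fin c) (R p) := ∑ i ∈ Finset.range m, B ^ i with hY
  have h1 : (B - 1) * Y = 0 := by
    rw [hY, mul_geom_sum, h, sub_self]
  have h2 : red p c Y = (m : Matrix (Fin c) (Fin c) (ZMod p)) := by
    rw [hY, map_sum]
    simp [hB]
  have h3 : IsUnit (PowerSeries.constantCoeff (R := ZMod p) Y.det) := by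
    have h4 : PowerSeries.constantCoeff (R := ZMod p) Y.det = (red p c Y).det := by
      rw [RingHom.map_det]
      rfl
    rw [h4, h2]
    have h5 : (m : Matrix (Fin c) (Fin c) (ZMod p)) = (m : ZMod p) • (1 : Matrix (Fin c) (Fin c) (ZMod p)) := by
      ext i j
      rw [Matrix.natCast_apply, Matrix.smul_apply, Matrix.one_apply]
      split_ifs <;> simp
    rw [h5, Matrix.det_smul, Matrix.det_one, mul_one]
    refine IsUnit.pow _ ?_
    rw [isUnit_iff_ne_zero, Ne, ZMod.natCast_eq_zero_iff]
    exact hm
  have h6 : IsUnit Y.det := PowerSeries.isUnit_iff_constantCoeff.2 h3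
  have h7 : IsUnit Y := (Matrix.isUnit_iff_isUnit_det Y).2 h6
  have h8 : B - 1 = 0 := by
    rcases h7 with ⟨u, hu⟩
    rw [← hu] at h1
    have h9 := congrArg (fun M => M * (↑u⁻¹ : Matrix (Fin c) (Fin c) (R p))) h1
    simpa [mul_assoc] using h9
  exact sub_eq_zero.1 h8

/-- **Package C.** -/
theorem proof : S_C := by
  intro p _ G S _ _ _ _ ρ N hNn hidx hpi hN c hc
  classical
  have : N.Normal := hNn
  have : N.FiniteIndex := ⟨hidx⟩
  obtain ⟨s, hs, hli⟩ := exists_set_linearIndependent_of_isDomain (R p) S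
  have hsf : s.Finite := by
    rw [← Cardinal.lt_aleph0_iff_set_finite, hs, hc]
    exact Cardinal.natCast_lt_aleph0
  have hrf : (Set.range ρ).Finite := by
    have h1 : Set.range ρ ⊆ Set.range (QuotientGroup.lift N ρ (fun g hg => (hN g).2 hg)) := by
      rintro _ ⟨g, rfl⟩
      exact ⟨(g : G ⧸ N), rfl⟩
    exact (Set.finite_range _).subset h1
  have hgN : ∀ g : G, ρ g ^ N.index = 1 := by
    intro g
    rw [← map_pow, hN]
    exact N.pow_index_mem g
  set P : Set S := Set.image2 (fun f v => f v) (Set.range ρ) s with hP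
  have hPf : P.Finite := hrf.image2 _ hsf
  set L : Submodule (R p) S := Submodule.span (R p) P with hL
  have : Module.Finite (R p) L := Module.Finite.span_of_finite _ hPf
  have hsL : Submodule.span (R p) s ≤ L := by
    apply Submodule.span_mono
    intro v hv
    exact ⟨1, ⟨1, map_one ρ⟩, v, hv, rfl⟩
  have hst : ∀ g : G, ∀ x ∈ L, ρ g x ∈ L := by
    intro g x hx
    have h1 : L ≤ L.comap (ρ g) := by
      rw [hL, Submodule.span_le]
      rintro _ ⟨_, ⟨h, rfl⟩, v, hv, rfl⟩
      refine Submodule.subset_span ⟨ρ (g * h), ⟨_, rfl⟩, v, hv, ?_⟩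
      change ρ (g * h) v = ρ g (ρ h v)
      rw [map_mul]
      rfl
    exact h1 hx
  have hrL : Module.rank (R p) L = c := by
    apply le_antisymm
    · rw [← hc]
      exact Submodule.rank_le L
    · rw [← hc, ← hs, ← rank_span_set hli]
      exact Submodule.rank_mono hsL
  have htors : ∀ x : S, ∃ r : R p, r ≠ 0 ∧ r • x ∈ L := by
    have h1 := rank_quotient_add_rank_of_isDomain (R := R p) L
    rw [hrL, hc] at h1
    have h2 : Module.rank (R p) (S ⧸ L) = 0 := by
      have h3 : Module.rank (R p) (S ⧸ L) < Cardinal.aleph0 :=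
        (self_le_add_right _ _).trans_lt (h1.trans_lt Cardinal.natCast_lt_aleph0)
      obtain ⟨d, hd⟩ := Cardinal.lt_aleph0.1 h3
      rw [hd] at h1 ⊢
      have h4 : d + c = c := by exact_mod_cast h1
      have h5 : d = 0 := by omega
      rw [h5, Nat.cast_zero]
    rw [rank_eq_zero_iff] at h2
    intro x
    obtain ⟨r, hr, h3⟩ := h2 (Submodule.Quotient.mk x)
    exact ⟨r, hr, (Submodule.Quotient.mk_eq_zero L).1 h3⟩
  have : Module.Free (R p) L := Module.free_of_finite_type_torsion_free'
  have hfr : Module.finrank (R p) L = c := Module.finrank_eq_of_rank_eq hrL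
  let b : Basis (Fin c) (R p) L := Module.finBasisOfFinrankEq (R p) L hfr
  let ρL : G →* Module.End (R p) L :=
    { toFun := fun g => (ρ g).restrict (hst g)
      map_one' := by
        ext x
        change ρ 1 x = x
        rw [map_one]
        rfl
      map_mul' := by
        intro g h
        ext x
        change ρ (g * h) x = ρ g (ρ h x)
        rw [map_mul]
        rfl }
  let A : Module.End (R p) L →* Matrix (Fin c) (Fin c) (R p) :=
    (LinearMap.toMatrixAlgEquiv b : Module.End (R p) L →* Matrix (Fin c) (Fin c) (R p))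
  let φ : G →* GL (Fin c) (ZMod p) :=
    MonoidHom.toHomUnits (((red p c).toMonoidHom.comp A).comp ρL)
  refine ⟨φ, ?_⟩
  ext g
  rw [MonoidHom.mem_ker, ← hN]
  constructor
  · intro h
    have h1 : red p c (A (ρL g)) = 1 := congrArg Units.val h
    have hL1 : ρL g ^ N.index = 1 := by
      ext x
      rw [← map_pow]
      change ρ (g ^ N.index) x = x
      rw [map_pow, hgN]
      rfl
    have h2 : A (ρL g) = 1 := by
      refine eq_one_of_map c N.index hpi _ ?_ h1
      rw [← map_pow, hL1, map_one]
    have h3 : ρL g = 1 := by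
      apply (LinearMap.toMatrixAlgEquiv b).injective
      rw [map_one]
      exact h2
    ext x
    obtain ⟨r, hr, hx⟩ := htors x
    have h4 : ρ g (r • x) = r • x := congrArg Subtype.val (LinearMap.congr_fun h3 ⟨r • x, hx⟩)
    rw [map_smul] at h4
    exact smul_right_injective S hr h4
  · intro h
    have h1 : ρL g = 1 := by
      ext x
      change ρ g x = x
      rw [h]
      rfl
    apply Units.ext
    change red p c (A (ρL g)) = 1
    rw [h1, map_one, map_one]

end Pool.Agent.U10.Mu.C
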