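import Pool.Agent.U10.Mu.Data

/-!
# Project MU: the families of inertia and decomposition groups
-/

set_option autoImplicit false

namespace Pool.Agent.U10.Mu

open Pool.Agent.U10.Shr (ine dec conj_ine conj_dec mem_nonunits_comap Over over_conj)

variable (k : Type) [Field k]

/-- All inertia groups. -/
def famI : Set (Subgroup (AlgebraicClosure k ≃ₐ[k] AlgebraicClosure k)) :=
  {D | ∃ V : ValuationSubring (AlgebraicClosure k), D = ine k V}

theorem stab_famI : Stab (famI k) := by
  rintro D ⟨V, rfl⟩ g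
  exact ⟨_, ⟨V.comap (g : AlgebraicClosure k →+* AlgebraicClosure k), rfl⟩,
    fun σ hσ => conj_ine k V g hσ⟩

/-- All inertia groups and the decomposition groups of the places above `p`. -/
def famD (p : ℕ) : Set (Subgroup (AlgebraicClosure k ≃ₐ[k] AlgebraicClosure k)) :=
  {D | (∃ V : ValuationSubring (AlgebraicClosure k), D = ine k V) ∨
    ∃ V : ValuationSubring (AlgebraicClosure k), (p : AlgebraicClosure k) ∈ V.nonunits ∧
      D = dec k V}

theorem stab_famD (p : ℕ) : Stab (famD k p) := by
  rintro D (⟨V, rfl⟩ | ⟨V, hV, rfl⟩) g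
  · exact ⟨_, Or.inl ⟨V.comap (g : AlgebraicClosure k →+* AlgebraicClosure k), rfl⟩,
      fun σ hσ => conj_ine k V g hσ⟩
  · refine ⟨_, Or.inr ⟨V.comap (g : AlgebraicClosure k →+* AlgebraicClosure k), ?_, rfl⟩,
      fun σ hσ => conj_dec k V g hσ⟩
    rw [mem_nonunits_comap, map_natCast]
    exact hV

/-- The inertia groups of the places which are not over `S`. -/
def famO (S : Set (ValuationSubring k)) :
    Set (Subgroup (AlgebraicClosure k ≃ₐ[k] AlgebraicClosure k)) :=
  {D | ∃ V : ValuationSubring (AlgebraicClosure k),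
    V.comap (algebraMap k (AlgebraicClosure k)) ∉ S ∧ D = ine k V}

theorem stab_famO (S : Set (ValuationSubring k)) : Stab (famO k S) := by
  rintro D ⟨V, hV, rfl⟩ g
  refine ⟨_, ⟨V.comap (g : AlgebraicClosure k →+* AlgebraicClosure k), fun h => hV ?_, rfl⟩,
    fun σ hσ => conj_ine k V g hσ⟩
  exact (over_conj k g).1 h

end Pool.Agent.U10.Mu
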