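import Mathlib
import Pool.Agent.U10.Mu.Stm
import Pool.Agent.U10.Shr.Gen

/-!
# Project MU, package A (helper103): ranks of the equivariant homomorphisms and ranks of the fixed
elements of one representation
-/

set_option autoImplicit false
set_option linter.unusedSectionVars false

namespace Pool.Agent.U10.Mu.A

open Module Pool.Agent.U10.Mu Pool.Agent.U10.Shr

section basic

variable {R G : Type} [CommRing R] [Group G] (κ : G →* R)

theorem kap_inv (g : G) : κ g⁻¹ * κ g = 1 := by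
  rw [← map_mul, inv_mul_cancel, map_one]

theorem kap_inv' (g : G) : κ g * κ g⁻¹ = 1 := by
  rw [← map_mul, mul_inv_cancel, map_one]

theorem cmem (N : Subgroup G) [hN : N.Normal] (g : G) (x : ↥(N ⊓ κ.ker)) :
    g⁻¹ * (x : G) * g ∈ N ⊓ κ.ker := by
  refine ⟨by simpa using hN.conj_mem x x.2.1 g⁻¹, ?_⟩
  have hx : κ (x : G) = 1 := MonoidHom.mem_ker.1 x.2.2
  refine MonoidHom.mem_ker.2 ?_
  rw [map_mul, map_mul, hx, mul_one, kap_inv]

/-- conjugation on `N ∩ ker κ` -/
def cnj (N : Subgroup G) [N.Normal] (g : G) (x : ↥(N ⊓ κ.ker)) : ↥(N ⊓ κ.ker) :=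
  ⟨g⁻¹ * x * g, cmem κ N g x⟩

theorem cnj_coe (N : Subgroup G) [N.Normal] (g : G) (x : ↥(N ⊓ κ.ker)) :
    ((cnj κ N g x : ↥(N ⊓ κ.ker)) : G) = g⁻¹ * x * g := rfl

theorem cnj_mul (N : Subgroup G) [N.Normal] (g : G) (x y : ↥(N ⊓ κ.ker)) :
    cnj κ N g (x * y) = cnj κ N g x * cnj κ N g y := by
  apply Subtype.ext
  simp only [cnj_coe, Subgroup.coe_mul]
  group

end basic

section rep

variable {R G : Type} [CommRing R] [TopologicalSpace R] [IsTopologicalRing R] [Group G]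
    [TopologicalSpace G] [IsTopologicalGroup G] (κ : G →* R) (F : Set (Subgroup G))
    (hF : ∀ D ∈ F, ∀ g : G, ∃ D' ∈ F, ∀ σ ∈ D, g⁻¹ * σ * g ∈ D') (N : Subgroup G) [hN : N.Normal]

include hF in
theorem rh_mem (g : G) (f : E κ F N) : (fun x => κ g * f.1 (cnj κ N g x)) ∈ E κ F N := by
  obtain ⟨h1, h2, h3, h4⟩ := f.2
  refine ⟨fun x y => ?_, ?_, fun D hD x hx => ?_, fun σ hσ x y hxy => ?_⟩
  · simp only [cnj_mul, h1]
    ring
  · refine continuous_const.mul (h2.comp ?_)
    refine Continuous.subtype_mk ?_ _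
    fun_prop
  · obtain ⟨D', hD', h⟩ := hF D hD g
    simp only
    rw [h3 D' hD' _ (h x hx), mul_zero]
  · have e := h4 (g⁻¹ * σ * g) (by simpa using hN.conj_mem σ hσ g⁻¹) (cnj κ N g x) (cnj κ N g y) (by
      rw [cnj_coe, cnj_coe, hxy]
      group)
    have e2 : κ (g⁻¹ * σ * g) = κ σ := by
      rw [map_mul, map_mul]
      calc κ g⁻¹ * κ σ * κ g = (κ g⁻¹ * κ g) * κ σ := by ring
        _ = κ σ := by rw [kap_inv, one_mul]
    simp only
    rw [e, e2]
    ring

/-- the action of one element -/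
def rh (g : G) : Module.End R (E κ F N) where
  toFun f := ⟨fun x => κ g * f.1 (cnj κ N g x), rh_mem κ F hF N g f⟩
  map_add' f f' := by
    apply Subtype.ext
    funext x
    show κ g * (f.1 (cnj κ N g x) + f'.1 (cnj κ N g x)) = _
    rw [mul_add]
    rfl
  map_smul' c f := by
    apply Subtype.ext
    funext x
    show κ g * (c * f.1 (cnj κ N g x)) = c * (κ g * f.1 (cnj κ N g x))
    ring

theorem rh_apply (g : G) (f : E κ F N) (x : ↥(N ⊓ κ.ker)) :
    (rh κ F hF N g f).1 x = κ g * f.1 (cnj κ N g x) := rfl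

/-- the representation -/
def rho : G →* Module.End R (E κ F N) where
  toFun g := rh κ F hF N g
  map_one' := by
    ext f x
    show κ 1 * f.1 (cnj κ N 1 x) = f.1 x
    have e : cnj κ N 1 x = x := by
      apply Subtype.ext
      rw [cnj_coe]
      group
    rw [e, map_one, one_mul]
  map_mul' g h := by
    ext f x
    show κ (g * h) * f.1 (cnj κ N (g * h) x) = κ g * (κ h * f.1 (cnj κ N h (cnj κ N g x)))
    have e : cnj κ N (g * h) x = cnj κ N h (cnj κ N g x) := by
      apply Subtype.ext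
      simp only [cnj_coe]
      group
    rw [e, map_mul]
    ring

theorem rho_apply (g : G) (f : E κ F N) (x : ↥(N ⊓ κ.ker)) :
    (rho κ F hF N g f).1 x = κ g * f.1 (cnj κ N g x) := rfl

theorem rho_one (g : G) (hg : g ∈ N) : rho κ F hF N g = 1 := by
  ext f x
  show κ g * f.1 (cnj κ N g x) = f.1 x
  obtain ⟨h1, h2, h3, h4⟩ := f.2
  rw [h4 g⁻¹ (inv_mem hg) x (cnj κ N g x) (by rw [cnj_coe, inv_inv]), ← mul_assoc, kap_inv', one_mul]

variable {N} {H : Subgroup G} (hNH : N ≤ H)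

theorem res_mem (f : E κ F H) :
    (fun x => f.1 (Subgroup.inclusion (inf_le_inf_right κ.ker hNH) x)) ∈ E κ F N := by
  obtain ⟨h1, h2, h3, h4⟩ := f.2
  refine ⟨fun x y => ?_, ?_, fun D hD x hx => ?_, fun σ hσ x y hxy => ?_⟩
  · simp only [map_mul, h1]
  · refine h2.comp ?_
    exact Continuous.subtype_mk continuous_subtype_val _
  · exact h3 D hD _ hx
  · exact h4 σ (hNH hσ) _ _ hxy

theorem res_fix (f : E κ F H) :
    (⟨_, res_mem κ F hNH f⟩ : E κ F N) ∈ Fx (rho κ F hF N) H := by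
  intro h hh
  apply Subtype.ext
  funext x
  rw [rho_apply]
  obtain ⟨h1, h2, h3, h4⟩ := f.2
  show κ h * f.1 (Subgroup.inclusion _ (cnj κ N h x)) = f.1 (Subgroup.inclusion _ x)
  rw [h4 h⁻¹ (inv_mem hh) (Subgroup.inclusion (inf_le_inf_right κ.ker hNH) x)
    (Subgroup.inclusion (inf_le_inf_right κ.ker hNH) (cnj κ N h x)) (by
      rw [Subgroup.coe_inclusion, Subgroup.coe_inclusion, cnj_coe, inv_inv]),
    ← mul_assoc, kap_inv', one_mul]

/-- restriction -/
def resL : E κ F H →ₗ[R] Fx (rho κ F hF N) H where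
  toFun f := ⟨⟨_, res_mem κ F hNH f⟩, res_fix κ F hF hNH f⟩
  map_add' _ _ := rfl
  map_smul' _ _ := rfl

end rep

section pow

variable {R G : Type} [CommRing R] [Group G] (κ : G →* R)

theorem pw_mem (N H : Subgroup G) [hN : N.Normal] (x : ↥(H ⊓ κ.ker)) :
    ((x : G)) ^ N.index ∈ N ⊓ κ.ker := by
  refine ⟨N.pow_index_mem _, MonoidHom.mem_ker.2 ?_⟩
  have hx : κ (x : G) = 1 := MonoidHom.mem_ker.1 x.2.2
  rw [map_pow, hx, one_pow]

/-- the power -/
noncomputable def pw (N H : Subgroup G) [hN : N.Normal] (x : ↥(H ⊓ κ.ker)) : ↥(N ⊓ κ.ker) :=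
  ⟨(x : G) ^ N.index, pw_mem κ N H x⟩

theorem add_pow' {H' : Subgroup G} {f : H' → R} (hf : ∀ x y, f (x * y) = f x + f y) (x : H')
    (n : ℕ) : f (x ^ n) = n * f x := by
  induction n with
  | zero =>
    have h := hf 1 1
    rw [mul_one] at h
    have h0 : f 1 = 0 := by
      have := congrArg (fun z => z - f 1) h
      simpa using this.symm
    rw [pow_zero, h0, Nat.cast_zero, zero_mul]
  | succ n ih =>
    rw [pow_succ, hf, ih]
    push_cast
    ring

theorem pw_eq {N H : Subgroup G} [hN : N.Normal] (hNH : N ≤ H) {f : ↥(H ⊓ κ.ker) → R}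
    (hf : ∀ x y, f (x * y) = f x + f y) (x : ↥(H ⊓ κ.ker)) :
    f (Subgroup.inclusion (inf_le_inf_right κ.ker hNH) (pw κ N H x)) = (N.index : R) * f x := by
  rw [← add_pow' hf]
  congr 1

end pow

section cont

variable {R G : Type} [CommRing R] [TopologicalSpace R] [IsTopologicalRing R] [Group G]
    [TopologicalSpace G] [IsTopologicalGroup G]

theorem cont_of {H' N' : Subgroup G} (hle : N' ≤ H') (hopen : IsOpen {x : H' | (x : G) ∈ N'})
    {f : H' → R} (hadd : ∀ x y, f (x * y) = f x + f y)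
    (hres : Continuous (fun n : N' => f (Subgroup.inclusion hle n))) : Continuous f := by
  have c0 : ContinuousOn f {x : H' | (x : G) ∈ N'} := by
    rw [continuousOn_iff_continuous_domRestrict]
    have e : Set.domRestrict {x : H' | (x : G) ∈ N'} f =
        (fun n : N' => f (Subgroup.inclusion hle n)) ∘
          (fun u : {x : H' | (x : G) ∈ N'} => (⟨(u.1 : G), u.2⟩ : N')) := by
      funext u
      rfl
    rw [e]
    refine hres.comp ?_
    refine Continuous.subtype_mk ?_ _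
    fun_prop
  have c1 : ContinuousAt f 1 := c0.continuousAt (hopen.mem_nhds (one_mem N'))
  rw [continuous_iff_continuousAt]
  intro x0
  have e : f = fun x => f x0 + f (x0⁻¹ * x) := by
    funext x
    rw [← hadd, mul_inv_cancel_left]
  rw [e]
  refine continuousAt_const.add ?_
  have c2 : ContinuousAt f (x0⁻¹ * x0) := by
    rw [inv_mul_cancel]
    exact c1
  exact ContinuousAt.comp (f := fun x => x0⁻¹ * x) c2 (by fun_prop)

end cont

section cores

variable {R G : Type} [CommRing R] [IsDomain R] [TopologicalSpace R] [IsTopologicalRing R] [Group G]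
    [TopologicalSpace G] [IsTopologicalGroup G] (κ : G →* R) (F : Set (Subgroup G))
    (hF : ∀ D ∈ F, ∀ g : G, ∃ D' ∈ F, ∀ σ ∈ D, g⁻¹ * σ * g ∈ D') {N : Subgroup G} [hN : N.Normal]
    {H : Subgroup G} (hNH : N ≤ H)

/-- the trivial action -/
abbrev tr : G →* Module.End R R := 1

include hNH in
theorem idx_dvd : ((N ⊓ κ.ker).subgroupOf (H ⊓ κ.ker)).index ∣ N.index := by
  have h1 : ((N ⊓ κ.ker).subgroupOf (H ⊓ κ.ker)).index = (N ⊓ κ.ker).relIndex (H ⊓ κ.ker) := rfl
  have h2 : N ⊓ κ.ker = N ⊓ (H ⊓ κ.ker) := by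
    rw [← inf_assoc, inf_eq_left.2 hNH]
  rw [h1, h2, Subgroup.inf_relIndex_right]
  exact Subgroup.relIndex_dvd_index_of_normal N (H ⊓ κ.ker)

variable [Fintype (↥(H ⊓ κ.ker) ⧸ (N ⊓ κ.ker).subgroupOf (H ⊓ κ.ker))]

/-- the corestriction -/
noncomputable def cor (f : ↥(N ⊓ κ.ker) → R) : ↥(H ⊓ κ.ker) → R := co (tr (R := R)) (H := H ⊓ κ.ker) f

omit [IsDomain R] [TopologicalSpace R] [IsTopologicalRing R] [IsTopologicalGroup G] in
theorem cor_add {f : ↥(N ⊓ κ.ker) → R} (hf : ∀ x y, f (x * y) = f x + f y)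
    (x y : ↥(H ⊓ κ.ker)) : cor κ f (x * y) = cor κ f x + cor κ f y := by
  have h : IsCoc (tr (R := R)) (N ⊓ κ.ker) f := fun σ τ => hf σ τ
  exact co_coc h x y

include hNH in
theorem cor_res (f : E κ F N) (hfix : f ∈ Fx (rho κ F hF N) H) (n : ↥(N ⊓ κ.ker)) :
    cor κ f.1 (Subgroup.inclusion (inf_le_inf_right κ.ker hNH) n) =
      (((N ⊓ κ.ker).subgroupOf (H ⊓ κ.ker)).index : R) * f.1 n := by
  have h1 := congrFun (rs_co (a := tr (R := R)) (inf_le_inf_right κ.ker hNH) f.1) n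
  have h2 : rs (inf_le_inf_right κ.ker hNH) (co (tr (R := R)) (H := H ⊓ κ.ker) f.1) n =
      cor κ f.1 (Subgroup.inclusion (inf_le_inf_right κ.ker hNH) n) := rfl
  rw [h2] at h1
  rw [h1, Finset.sum_apply]
  have h3 : ∀ q : ↥(H ⊓ κ.ker) ⧸ (N ⊓ κ.ker).subgroupOf (H ⊓ κ.ker),
      cj (tr (R := R)) (N ⊓ κ.ker) ((rp q : ↥(H ⊓ κ.ker)) : G) f.1 n = f.1 n := by
    intro q
    set g : G := ((rp q : ↥(H ⊓ κ.ker)) : G) with hg
    have hgH : g ∈ H := (rp q).2.1
    have hgk : κ g = 1 := MonoidHom.mem_ker.1 (rp q).2.2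
    have h4 := congrFun (congrArg Subtype.val (hfix g hgH)) n
    rw [rho_apply, hgk, one_mul] at h4
    exact h4
  rw [Finset.sum_congr rfl (fun q _ => h3 q), Finset.sum_const, Finset.card_univ, nsmul_eq_mul,
    Subgroup.index, Nat.card_eq_fintype_card]

include hNH in
theorem cor_pw (f : E κ F N) (hfix : f ∈ Fx (rho κ F hF N) H) (x : ↥(H ⊓ κ.ker)) :
    (N.index : R) * cor κ f.1 x =
      (((N ⊓ κ.ker).subgroupOf (H ⊓ κ.ker)).index : R) * f.1 (pw κ N H x) := by
  rw [← cor_res κ F hF hNH f hfix, pw_eq κ hNH (cor_add κ f.2.1)]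

include hNH in
theorem cor_mem (hopen : IsOpen (N : Set G)) (hm : (N.index : R) ≠ 0)
    (f : E κ F N) (hfix : f ∈ Fx (rho κ F hF N) H) : cor κ f.1 ∈ E κ F H := by
  refine ⟨cor_add κ f.2.1, ?_, fun D hD x hx => ?_, fun σ hσ x y hxy => ?_⟩
  · refine cont_of (inf_le_inf_right κ.ker hNH) ?_ (cor_add κ f.2.1) ?_
    · have e : {x : ↥(H ⊓ κ.ker) | (x : G) ∈ N ⊓ κ.ker} = Subtype.val ⁻¹' (N : Set G) := by
        ext x
        exact ⟨fun h => h.1, fun h => ⟨h, x.2.2⟩⟩
      rw [e]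
      exact hopen.preimage continuous_subtype_val
    · have e : (fun n : ↥(N ⊓ κ.ker) => cor κ f.1
          (Subgroup.inclusion (inf_le_inf_right κ.ker hNH) n)) =
          fun n => (((N ⊓ κ.ker).subgroupOf (H ⊓ κ.ker)).index : R) * f.1 n :=
        funext fun n => cor_res κ F hF hNH f hfix n
      rw [e]
      exact continuous_const.mul f.2.2.1
  · have h1 := cor_pw κ F hF hNH f hfix x
    rw [f.2.2.2.1 D hD (pw κ N H x) (pow_mem hx _), mul_zero] at h1
    exact (mul_eq_zero.1 h1).resolve_left hm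
  · have h1 := cor_pw κ F hF hNH f hfix x
    have h2 := cor_pw κ F hF hNH f hfix y
    have h3 := congrFun (congrArg Subtype.val (hfix σ hσ)) (pw κ N H y)
    rw [rho_apply] at h3
    have h4 : cnj κ N σ (pw κ N H y) = pw κ N H x := by
      apply Subtype.ext
      rw [cnj_coe]
      show σ⁻¹ * (y : G) ^ N.index * σ = (x : G) ^ N.index
      rw [hxy, conj_pow]
      group
    rw [h4] at h3
    rw [← h3] at h2
    apply mul_left_cancel₀ hm
    rw [h2]
    calc (((N ⊓ κ.ker).subgroupOf (H ⊓ κ.ker)).index : R) * (κ σ * f.1 (pw κ N H x)) =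
        κ σ * ((((N ⊓ κ.ker).subgroupOf (H ⊓ κ.ker)).index : R) * f.1 (pw κ N H x)) := by ring
      _ = κ σ * ((N.index : R) * cor κ f.1 x) := by rw [h1]
      _ = _ := by ring

/-- the corestriction as a linear map -/
noncomputable def corL (hopen : IsOpen (N : Set G)) (hm : (N.index : R) ≠ 0) :
    Fx (rho κ F hF N) H →ₗ[R] E κ F H where
  toFun f := ⟨cor κ f.1.1, cor_mem κ F hF hNH hopen hm f.1 f.2⟩
  map_add' f f' := by
    apply Subtype.ext
    exact co_add (a := tr (R := R)) (H := H ⊓ κ.ker) f.1.1 f'.1.1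
  map_smul' c f := by
    apply Subtype.ext
    exact co_smul (a := tr (R := R)) (H := H ⊓ κ.ker) c f.1.1

theorem corL_inj (hopen : IsOpen (N : Set G)) (hm : (N.index : R) ≠ 0) :
    Function.Injective (corL κ F hF hNH hopen hm) := by
  rw [injective_iff_map_eq_zero]
  intro f hf
  apply Subtype.ext
  apply Subtype.ext
  funext n
  have h1 := cor_res κ F hF hNH f.1 f.2 n
  have h2 : cor κ f.1.1 = 0 := congrArg Subtype.val hf
  rw [h2] at h1
  have h3 : (((N ⊓ κ.ker).subgroupOf (H ⊓ κ.ker)).index : R) ≠ 0 := by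
    intro h0
    apply hm
    obtain ⟨j, hj⟩ := idx_dvd κ hNH
    rw [hj, Nat.cast_mul, h0, zero_mul]
  exact (mul_eq_zero.1 h1.symm).resolve_left h3

end cores

theorem proof : S_A := by
  intro R G _ _ _ _ _ _ _ κ F hF N hN hopen hidx hm
  refine ⟨E κ F N, inferInstance, inferInstance, inferInstance, rho κ F hF N, rho_one κ F hF N,
    fun H hNH => le_antisymm ?_ ?_⟩
  · refine LinearMap.rank_le_of_injective (resL κ F hF hNH) ?_
    rw [injective_iff_map_eq_zero]
    intro f hf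
    apply Subtype.ext
    funext x
    have h1 := pw_eq κ hNH f.2.1 x
    have h2 : f.1 (Subgroup.inclusion (inf_le_inf_right κ.ker hNH) (pw κ N H x)) = 0 :=
      congrFun (congrArg (fun z : Fx (rho κ F hF N) H => z.1.1) hf) (pw κ N H x)
    rw [h2] at h1
    exact (mul_eq_zero.1 h1.symm).resolve_left hm
  · have hfin : ((N ⊓ κ.ker).subgroupOf (H ⊓ κ.ker)).FiniteIndex := by
      refine ⟨fun h0 => hidx ?_⟩
      have := idx_dvd κ hNH
      rw [h0] at this
      exact Nat.eq_zero_of_zero_dvd this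
    haveI : Fintype (↥(H ⊓ κ.ker) ⧸ (N ⊓ κ.ker).subgroupOf (H ⊓ κ.ker)) := Fintype.ofFinite _
    exact LinearMap.rank_le_of_injective (corL κ F hF hNH hopen hm) (corL_inj κ F hF hNH hopen hm)

end Pool.Agent.U10.Mu.A
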