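import Mathlib

/-!
# Project MU: the power series `(1 + T) ^ x`, `x ∈ ℤ_p`, over `F_p`
-/

set_option autoImplicit false

namespace Pool.Agent.U10.Mu

open PowerSeries

variable {p : ℕ} [hp : Fact p.Prime]

/-- The power series `(1 + T) ^ x = ∑ (x choose n) T ^ n` over `F_p`, for a `p`-adic integer `x`. -/
noncomputable def opw (p : ℕ) [Fact p.Prime] (x : ℤ_[p]) : PowerSeries (ZMod p) :=
  PowerSeries.mk fun n => PadicInt.toZMod (Ring.choose x n)

theorem opw_add (x y : ℤ_[p]) : opw p (x + y) = opw p x * opw p y := by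
  ext n
  rw [PowerSeries.coeff_mul]
  simp only [opw, PowerSeries.coeff_mk]
  rw [Ring.add_choose_eq n (Commute.all x y), map_sum]
  simp only [map_mul]

theorem opw_zero : opw p (0 : ℤ_[p]) = 1 := by
  ext n
  simp only [opw, PowerSeries.coeff_mk, PowerSeries.coeff_one, Ring.choose_zero_ite]
  split_ifs <;> simp

theorem opw_natCast (n : ℕ) : opw p (n : ℤ_[p]) = (1 + X) ^ n := by
  induction n with
  | zero => rw [Nat.cast_zero, opw_zero, pow_zero]
  | succ n ih =>
    rw [Nat.cast_succ, opw_add, ih, pow_succ]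
    congr 1
    ext m
    simp only [opw, PowerSeries.coeff_mk, map_add, PowerSeries.coeff_one, PowerSeries.coeff_X]
    have h1 : Ring.choose (1 : ℤ_[p]) m = (Nat.choose 1 m : ℕ) := by
      have h2 := Ring.choose_natCast (R := ℤ_[p]) 1 m
      rwa [Nat.cast_one] at h2
    rw [h1, map_natCast]
    rcases m with _ | _ | m
    · simp
    · simp
    · rw [Nat.choose_eq_zero_of_lt (by omega)]
      simp

theorem cont_toZMod : Continuous (PadicInt.toZMod : ℤ_[p] →+* ZMod p) := by
  refine continuous_of_continuousAt_zero (PadicInt.toZMod : ℤ_[p] →+* ZMod p) ?_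
  rw [ContinuousAt, map_zero]
  rw [show nhds (0 : ZMod p) = pure 0 from congrFun (nhds_discrete (ZMod p)) 0, Filter.tendsto_pure]
  filter_upwards [Metric.ball_mem_nhds (0 : ℤ_[p]) one_pos] with x hx
  rw [mem_ball_zero_iff] at hx
  have h1 : x ∈ RingHom.ker (PadicInt.toZMod : ℤ_[p] →+* ZMod p) := by
    rw [PadicInt.ker_toZMod, IsLocalRing.mem_maximalIdeal]
    exact PadicInt.mem_nonunits.2 hx
  exact h1

theorem isClosed_opw : IsClosed {x : ℤ_[p] | opw p x = 1} := by
  have h1 : {x : ℤ_[p] | opw p x = 1} = ⋂ n : ℕ, {x : ℤ_[p] |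
      PadicInt.toZMod (Ring.choose x n) = PowerSeries.coeff n (1 : PowerSeries (ZMod p))} := by
    ext x
    simp only [Set.mem_ofPred_eq, Set.mem_iInter]
    constructor
    · intro h n
      rw [← h]
      simp only [opw, PowerSeries.coeff_mk]
    · intro h
      ext n
      rw [← h n]
      simp only [opw, PowerSeries.coeff_mk]
  rw [h1]
  refine isClosed_iInter fun n => ?_
  exact isClosed_eq (cont_toZMod.comp (PadicInt.continuous_choose n)) continuous_const

theorem opw_eq_one {x : ℤ_[p]} (h : opw p x = 1) : x = 0 := by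
  by_contra hx
  have h1 : ∀ y : ℤ_[p], opw p (y * x) = 1 := by
    have hcl : IsClosed {y : ℤ_[p] | opw p (y * x) = 1} :=
      isClosed_opw.preimage (continuous_id.mul continuous_const)
    have hn : ∀ n : ℕ, opw p ((n : ℤ_[p]) * x) = 1 := by
      intro n
      induction n with
      | zero => rw [Nat.cast_zero, zero_mul, opw_zero]
      | succ n ih => rw [Nat.cast_succ, add_mul, one_mul, opw_add, ih, h, mul_one]
    have h2 : closure (Set.range (Nat.cast : ℕ → ℤ_[p])) ⊆ {y : ℤ_[p] | opw p (y * x) = 1} :=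
      closure_minimal (by rintro _ ⟨n, rfl⟩; exact hn n) hcl
    intro y
    apply h2
    rw [PadicInt.denseRange_natCast.closure_range]
    exact Set.mem_univ y
  have h2 := PadicInt.unitCoeff_spec hx
  have h3 := h1 ((PadicInt.unitCoeff hx)⁻¹ : ℤ_[p]ˣ)
  have h4 : ((PadicInt.unitCoeff hx)⁻¹ : ℤ_[p]ˣ) * x = ((p ^ x.valuation : ℕ) : ℤ_[p]) := by
    refine (congrArg (fun z => (((PadicInt.unitCoeff hx)⁻¹ : ℤ_[p]ˣ) : ℤ_[p]) * z) h2).trans ?_
    push_cast
    rw [← mul_assoc, Units.inv_mul, one_mul]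
  rw [h4, opw_natCast] at h3
  have h5 : (1 + X : PowerSeries (ZMod p)) ^ p ^ x.valuation = 1 + X ^ p ^ x.valuation := by
    have : CharP (PowerSeries (ZMod p)) p :=
      charP_of_injective_ringHom (f := PowerSeries.C (R := ZMod p)) PowerSeries.C_injective p
    rw [add_pow_char_pow, one_pow]
  rw [h5] at h3
  have h6 := congrArg (PowerSeries.coeff (p ^ x.valuation)) h3
  rw [map_add, PowerSeries.coeff_X_pow_self, add_eq_left] at h6
  exact one_ne_zero h6

end Pool.Agent.U10.Mu
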