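import Pool.Agent.U10.Mu.Fin
import Pool.Agent.U10.Mu.Tw
import Pool.Agent.U10.Shr.Tw

/-!
# Project MU: the `Λ`-linear maps of the Iwasawa modules to `F_p[[T]]`
-/

set_option autoImplicit false
set_option linter.unusedSectionVars false
set_option linter.style.haveILetI false

namespace Pool.Agent.U10.Mu

open Module IntermediateField
open scoped PowerSeries.WithPiTopology

variable (p : ℕ) [Fact p.Prime] {G : Type} [Group G] [TopologicalSpace G]

/-- The character `(1 + T) ^ a`. -/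
noncomputable def kap (a : G →* Multiplicative ℤ_[p]) : G →* PowerSeries (ZMod p) where
  toFun σ := opw p (a σ).toAdd
  map_one' := by rw [map_one, toAdd_one, opw_zero]
  map_mul' σ τ := by rw [map_mul, toAdd_mul, opw_add]

theorem kap_ker (a : G →* Multiplicative ℤ_[p]) : (kap p a).ker = a.ker := by
  ext σ
  rw [MonoidHom.mem_ker, MonoidHom.mem_ker]
  change opw p (a σ).toAdd = 1 ↔ _
  constructor
  · intro h
    exact Multiplicative.toAdd.injective ((opw_eq_one h).trans toAdd_one.symm)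
  · intro h
    rw [h, toAdd_one, opw_zero]

/-- The continuous homomorphisms from `H ∩ ker a` to `F_p[[T]]` which vanish on the groups of the
family `F` and satisfy `f(σ x σ⁻¹) = (1 + T) ^ a(σ) f(x)`. -/
def IsE (a : G →* Multiplicative ℤ_[p]) (F : Set (Subgroup G)) (H : Subgroup G)
    (f : ↥(H ⊓ a.ker) → PowerSeries (ZMod p)) : Prop :=
  (∀ x y, f (x * y) = f x + f y) ∧
  (∀ n, IsLocallyConstant fun x => PowerSeries.coeff n (f x)) ∧
  (∀ D ∈ F, ∀ x : ↥(H ⊓ a.ker), (x : G) ∈ D → f x = 0) ∧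
  ∀ σ ∈ H, ∀ x y : ↥(H ⊓ a.ker), (y : G) = σ * x * σ⁻¹ → f y = opw p (a σ).toAdd * f x

theorem continuous_ps {X : Type*} [TopologicalSpace X] (f : X → PowerSeries (ZMod p)) :
    Continuous f ↔ ∀ n, IsLocallyConstant fun x => PowerSeries.coeff n (f x) := by
  constructor
  · intro h n
    rw [IsLocallyConstant.iff_continuous]
    exact (PowerSeries.WithPiTopology.continuous_coeff (ZMod p) n).comp h
  · intro h
    refine continuous_pi fun i => ?_
    have h1 := (h (i ())).continuous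
    have h2 : (fun x => PowerSeries.coeff (i ()) (f x)) = fun x => f x i := by
      funext x
      rw [PowerSeries.coeff]
      change (f x) _ = _
      congr 1
      ext
      simp
    rw [← h2]
    exact h1

/-- The module of these homomorphisms, for an arbitrary subgroup in place of the kernel. -/
def EC {R G : Type} [CommRing R] [TopologicalSpace R] [IsTopologicalRing R] [Group G]
    [TopologicalSpace G] (κ : G →* R) (F : Set (Subgroup G)) (H C : Subgroup G) :
    Submodule R (↥(H ⊓ C) → R) where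
  carrier := {f | (∀ x y, f (x * y) = f x + f y) ∧ Continuous f ∧
    (∀ D ∈ F, ∀ x : ↥(H ⊓ C), (x : G) ∈ D → f x = 0) ∧
    ∀ σ ∈ H, ∀ x y : ↥(H ⊓ C), (y : G) = σ * x * σ⁻¹ → f y = κ σ * f x}
  add_mem' := by
    rintro f g ⟨h1, h2, h3, h4⟩ ⟨g1, g2, g3, g4⟩
    refine ⟨fun x y => ?_, h2.add g2, fun D hD x hx => ?_, fun σ hσ x y hxy => ?_⟩
    · simp only [Pi.add_apply, h1, g1]
      ring
    · simp only [Pi.add_apply, h3 D hD x hx, g3 D hD x hx, add_zero]
    · simp only [Pi.add_apply, h4 σ hσ x y hxy, g4 σ hσ x y hxy]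
      ring
  zero_mem' := ⟨fun x y => by simp, continuous_const, fun D hD x hx => rfl,
    fun σ hσ x y hxy => by simp⟩
  smul_mem' := by
    rintro c f ⟨h1, h2, h3, h4⟩
    refine ⟨fun x y => ?_, h2.const_smul c, fun D hD x hx => ?_, fun σ hσ x y hxy => ?_⟩
    · simp only [Pi.smul_apply, h1, smul_eq_mul]
      ring
    · simp only [Pi.smul_apply, h3 D hD x hx, smul_zero]
    · simp only [Pi.smul_apply, h4 σ hσ x y hxy, smul_eq_mul]
      ring

theorem rank_EC (a : G →* Multiplicative ℤ_[p]) (F : Set (Subgroup G)) (H : Subgroup G) :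
    Module.rank (PowerSeries (ZMod p)) (EC (kap p a) F H a.ker) =
      Module.rank (PowerSeries (ZMod p)) (E (kap p a) F H) := by
  rw [← kap_ker p a]
  rfl

theorem mem_EC (a : G →* Multiplicative ℤ_[p]) (F : Set (Subgroup G)) (H : Subgroup G)
    (f : ↥(H ⊓ a.ker) → PowerSeries (ZMod p)) :
    f ∈ EC (kap p a) F H a.ker ↔ IsE p a F H f := by
  constructor
  · rintro ⟨h1, h2, h3, h4⟩
    exact ⟨h1, (continuous_ps p f).1 h2, h3, h4⟩
  · rintro ⟨h1, h2, h3, h4⟩
    exact ⟨h1, (continuous_ps p f).2 h2, h3, h4⟩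

/-- The module of these homomorphisms. -/
def EE (a : G →* Multiplicative ℤ_[p]) (F : Set (Subgroup G)) (H : Subgroup G) :
    Submodule (PowerSeries (ZMod p)) (↥(H ⊓ a.ker) → PowerSeries (ZMod p)) where
  carrier := {f | IsE p a F H f}
  add_mem' := fun {f g} hf hg => (mem_EC p a F H _).1
    (add_mem ((mem_EC p a F H f).2 hf) ((mem_EC p a F H g).2 hg))
  zero_mem' := (mem_EC p a F H _).1 (zero_mem _)
  smul_mem' := fun c {f} hf => (mem_EC p a F H _).1
    (Submodule.smul_mem _ c ((mem_EC p a F H f).2 hf))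

theorem rank_EE (a : G →* Multiplicative ℤ_[p]) (F : Set (Subgroup G)) (H : Subgroup G) :
    Module.rank (PowerSeries (ZMod p)) (EE p a F H) =
      Module.rank (PowerSeries (ZMod p)) (E (kap p a) F H) := by
  rw [← rank_EC]
  have h1 : EE p a F H = EC (kap p a) F H a.ker := Submodule.ext fun f => (mem_EC p a F H f).symm
  rw [h1]

section field

variable {k : Type} [Field k]

/-- The rank over the field `K`. -/
noncomputable def rkE (a : (AlgebraicClosure k ≃ₐ[k] AlgebraicClosure k) →* Multiplicative ℤ_[p])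
    (F : Set (Subgroup (AlgebraicClosure k ≃ₐ[k] AlgebraicClosure k)))
    (K : IntermediateField k (AlgebraicClosure k)) : Cardinal.{0} :=
  Module.rank (PowerSeries (ZMod p)) (EE p a F K.fixingSubgroup)

theorem rkE_eq (a : (AlgebraicClosure k ≃ₐ[k] AlgebraicClosure k) →* Multiplicative ℤ_[p])
    (F : Set (Subgroup (AlgebraicClosure k ≃ₐ[k] AlgebraicClosure k)))
    (K : IntermediateField k (AlgebraicClosure k)) : rkE p a F K = rkF (kap p a) F K :=
  rank_EE p a F K.fixingSubgroup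

/-- `K₁` controls the ranks over all finite extensions of `k` in `Ω`. -/
def CtlE (a : (AlgebraicClosure k ≃ₐ[k] AlgebraicClosure k) →* Multiplicative ℤ_[p])
    (F : Set (Subgroup (AlgebraicClosure k ≃ₐ[k] AlgebraicClosure k)))
    (Ω K₁ : IntermediateField k (AlgebraicClosure k)) : Prop :=
  ∀ K ≤ Ω, FiniteDimensional k K → rkE p a F K = rkE p a F (K ⊓ K₁)

theorem mainE [CharZero k] (hA : S_A) (hC : S_C)
    (a : (AlgebraicClosure k ≃ₐ[k] AlgebraicClosure k) →* Multiplicative ℤ_[p])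
    {F : Set (Subgroup (AlgebraicClosure k ≃ₐ[k] AlgebraicClosure k))} (hF : Stab F)
    (Ω : IntermediateField k (AlgebraicClosure k)) (hn : Normal k Ω)
    (hd : ∀ K ≤ Ω, FiniteDimensional k K → ¬ p ∣ finrank k K) :
    (∀ K K' : IntermediateField k (AlgebraicClosure k), K ≤ Ω → K' ≤ Ω →
      FiniteDimensional k K → FiniteDimensional k K' →
      rkE p a F K + rkE p a F K' ≤ rkE p a F (K ⊔ K') + rkE p a F (K ⊓ K')) ∧
    ((∃ m : ℕ, ∀ K ≤ Ω, FiniteDimensional k K → rkE p a F K ≤ m) ↔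
      ∃ K₁ ≤ Ω, FiniteDimensional k K₁ ∧ rkE p a F K₁ < Cardinal.aleph0 ∧ CtlE p a F Ω K₁) ∧
    ((∃ m : ℕ, ∀ K ≤ Ω, FiniteDimensional k K → rkE p a F K ≤ m) →
      ∃ K₀ ≤ Ω, FiniteDimensional k K₀ ∧ IsGalois k K₀ ∧ CtlE p a F Ω K₀ ∧
        (∀ K₁ ≤ Ω, FiniteDimensional k K₁ → CtlE p a F Ω K₁ → K₀ ≤ K₁) ∧
        (∀ K ≤ Ω, FiniteDimensional k K → Nat.Coprime (finrank k K) (finrank k K₀) →
          rkE p a F K = rkE p a F ⊥) ∧
        finrank k K₀ ∣ Nat.card (GL (Fin (rkE p a F K₀).toNat) (ZMod p)) ∧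
        ∃ φ : (K₀ ≃ₐ[k] K₀) →* GL (Fin (rkE p a F K₀).toNat) (ZMod p),
          Function.Injective φ) := by
  have he : rkE p a F = rkF (kap p a) F := funext (rkE_eq p a F)
  unfold CtlE
  rw [he]
  exact main hA hC (κ := kap p a) hF Ω hn hd

end field

end Pool.Agent.U10.Mu
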