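import Pool.Agent.U10.Shr.Fld

/-!
The smallest field of maximal rank, for an abstract rank function.
-/

set_option linter.unusedSectionVars false
set_option linter.style.haveILetI false

namespace Pool.Agent.U10.Mu

open Module IntermediateField
open Pool.Agent.U10.Shr (fd_of_le fix_inf FinIn)

variable {k A : Type} [Field k] [Field A] [Algebra k A] [IsGalois k A]

theorem controlling (Ω : IntermediateField k A) (s : IntermediateField k A → Cardinal.{0})
    (crF_super : ∀ K K' : IntermediateField k A, K ≤ Ω → K' ≤ Ω → FiniteDimensional k K →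
      FiniteDimensional k K' → s K + s K' ≤ s (K ⊔ K') + s (K ⊓ K'))
    (crF_mono : ∀ K K' : IntermediateField k A, K ≤ K' → K' ≤ Ω → FiniteDimensional k K' →
      s K ≤ s K')
    (crF_map_le : ∀ K ≤ Ω, FiniteDimensional k K → ∀ g : A ≃ₐ[k] A,
      K.map g.toAlgHom ≤ Ω → s K ≤ s (K.map g.toAlgHom)) (m : ℕ)
    (hm : ∀ K ≤ Ω, FiniteDimensional k K → s K ≤ m) :
    ∃ K₀ ≤ Ω, FiniteDimensional k K₀ ∧
      (∀ K ≤ Ω, FiniteDimensional k K → s K = s (K ⊓ K₀)) ∧
      (∀ K₁ ≤ Ω, FiniteDimensional k K₁ →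
        (∀ K ≤ Ω, FiniteDimensional k K → s K = s (K ⊓ K₁)) → K₀ ≤ K₁) ∧
      (Normal k Ω → Normal k K₀) := by
  classical
  have hfin : ∀ K ≤ Ω, FiniteDimensional k K →
      (((s K).toNat : ℕ) : Cardinal) = s K := by
    intro K hK hKf
    exact Cardinal.cast_toNat_of_lt_aleph0 ((hm K hK hKf).trans_lt Cardinal.natCast_lt_aleph0)
  haveI : Nonempty (FinIn Ω) := ⟨⟨⊥, inferInstance, bot_le⟩⟩
  obtain ⟨⟨K₀, hf₀, hΩ₀⟩, h1, h2, h3⟩ := Pool.Agent.U10.Sch.exists_least_max (α := FinIn Ω)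
    (fun K => ((s K.1).toNat : ℤ)) (fun K => finrank k K.1)
    (by
      rintro ⟨x, hx⟩ ⟨y, hy⟩ hxy hd
      haveI := hy.1
      exact Subtype.ext (IntermediateField.eq_of_le_of_finrank_le hxy hd))
    (by
      rintro ⟨x, hx⟩ ⟨y, hy⟩
      haveI := hx.1
      haveI := hy.1
      have h4 := crF_super x y hx.2 hy.2 hx.1 hy.1
      have hsup : x ⊔ y ≤ Ω := sup_le hx.2 hy.2
      have hinf : x ⊓ y ≤ Ω := inf_le_left.trans hx.2
      haveI : FiniteDimensional k (x ⊓ y : IntermediateField k A) :=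
        fd_of_le inf_le_left
      rw [← hfin x hx.2 hx.1, ← hfin y hy.2 hy.1, ← hfin _ hsup inferInstance,
        ← hfin _ hinf inferInstance] at h4
      exact_mod_cast h4)
    m (by
      rintro ⟨x, hx⟩
      have h4 := hm x hx.2 hx.1
      rw [← hfin x hx.2 hx.1] at h4
      exact_mod_cast h4)
  have hle : ∀ K ≤ Ω, FiniteDimensional k K → (s K).toNat ≤ (s K₀).toNat := by
    intro K hK hKf
    exact_mod_cast h1 ⟨K, hKf, hK⟩
  have hmin : ∀ K ≤ Ω, FiniteDimensional k K → (s K).toNat = (s K₀).toNat →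
      K₀ ≤ K := by
    intro K hK hKf h
    exact h2 ⟨K, hKf, hK⟩ (by exact_mod_cast h)
  refine ⟨K₀, hΩ₀, hf₀, ?_, ?_, ?_⟩
  · intro K hK hKf
    haveI : FiniteDimensional k (K ⊓ K₀ : IntermediateField k A) :=
      fd_of_le inf_le_left
    apply le_antisymm
    · have h4 := crF_super K K₀ hK hΩ₀ hKf hf₀
      have hsup : K ⊔ K₀ ≤ Ω := sup_le hK hΩ₀
      have hinf : K ⊓ K₀ ≤ Ω := inf_le_left.trans hK
      have h5 := hle _ hsup inferInstance
      rw [← hfin K hK hKf, ← hfin K₀ hΩ₀ hf₀, ← hfin _ hsup inferInstance,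
        ← hfin _ hinf inferInstance] at h4
      rw [← hfin K hK hKf, ← hfin _ hinf inferInstance]
      have h6 : (s K).toNat + (s K₀).toNat ≤
          (s (K ⊔ K₀)).toNat + (s (K ⊓ K₀)).toNat := by exact_mod_cast h4
      exact_mod_cast (by omega : (s K).toNat ≤ (s (K ⊓ K₀)).toNat)
    · exact crF_mono _ _ inf_le_left hK hKf
  · intro K₁ hK₁ hK₁f h
    haveI : FiniteDimensional k (K₀ ⊓ K₁ : IntermediateField k A) :=
      fd_of_le inf_le_left
    have h4 := h K₀ hΩ₀ hf₀
    have h5 := hmin (K₀ ⊓ K₁) (inf_le_left.trans hΩ₀) inferInstance (by rw [← h4])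
    exact h5.trans inf_le_right
  · intro hn
    rw [IntermediateField.normal_iff_forall_map_le']
    intro g
    have hmap : K₀.map (g : A ≃ₐ[k] A).toAlgHom ≤ Ω := by
      have h4 := (IntermediateField.normal_iff_forall_map_le'.1 hn) g
      exact (IntermediateField.map_mono _ hΩ₀).trans h4
    have hg := crF_map_le K₀ hΩ₀ hf₀ g hmap
    have h5 := hle _ hmap inferInstance
    have h6 : (s (K₀.map (g : A ≃ₐ[k] A).toAlgHom)).toNat = (s K₀).toNat := by
      apply le_antisymm h5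
      rw [← hfin K₀ hΩ₀ hf₀, ← hfin _ hmap inferInstance] at hg
      exact_mod_cast hg
    have h7 := hmin _ hmap inferInstance h6
    have h8 : finrank k (K₀.map (g : A ≃ₐ[k] A).toAlgHom) = finrank k K₀ :=
      (IntermediateField.equivMap K₀ (g : A ≃ₐ[k] A).toAlgHom).toLinearEquiv.finrank_eq.symm
    exact (IntermediateField.eq_of_le_of_finrank_le h7 h8.le).ge


end Pool.Agent.U10.Mu
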