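import Pool.Agent.U10.Mu.Stm
import Pool.Agent.U10.Mu.Lat

/-!
# Project MU: the ranks as a function of the field
-/

set_option linter.unusedSectionVars false
set_option linter.style.haveILetI false

namespace Pool.Agent.U10.Mu

open Module IntermediateField
open Pool.Agent.U10.Shr (fd_of_le fix_inf)

section fx

variable {R G S : Type} [CommRing R] [Group G] [AddCommGroup S] [Module R S]
  (ρ : G →* Module.End R S)

theorem fx_anti {H K : Subgroup G} (h : H ≤ K) : Fx ρ K ≤ Fx ρ H := fun _ hx g hg => hx g (h hg)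

theorem fx_sup (H K : Subgroup G) : Fx ρ (H ⊔ K) = Fx ρ H ⊓ Fx ρ K := by
  apply le_antisymm
  · exact le_inf (fx_anti ρ le_sup_left) (fx_anti ρ le_sup_right)
  · intro x hx
    let T : Subgroup G :=
      { carrier := {g | ρ g x = x}
        mul_mem' := by
          intro g h hg hh
          change ρ (g * h) x = x
          rw [map_mul]
          change ρ g (ρ h x) = x
          rw [hh, hg]
        one_mem' := by
          change ρ 1 x = x
          rw [map_one]
          rfl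
        inv_mem' := by
          intro g hg
          change ρ g⁻¹ x = x
          have h1 : ρ g⁻¹ (ρ g x) = x := by
            change (ρ g⁻¹ * ρ g) x = x
            rw [← map_mul, inv_mul_cancel, map_one]
            rfl
          rw [hg] at h1
          exact h1 }
    have h1 : H ⊔ K ≤ T := sup_le (fun h hh => hx.1 h hh) (fun h hh => hx.2 h hh)
    exact fun h hh => h1 hh

variable [IsDomain R]

theorem fx_super (H K : Subgroup G) : Module.rank R (Fx ρ H) + Module.rank R (Fx ρ K) ≤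
    Module.rank R (Fx ρ (H ⊓ K)) + Module.rank R (Fx ρ (H ⊔ K)) := by
  rw [fx_sup, ← Submodule.rank_sup_add_rank_inf_eq]
  exact add_le_add_left (Submodule.rank_mono
    (sup_le (fx_anti ρ inf_le_left) (fx_anti ρ inf_le_right))) _

theorem fx_conj {H K : Subgroup G} (g : G) (hK : ∀ k ∈ K, g⁻¹ * k * g ∈ H) :
    Module.rank R (Fx ρ H) ≤ Module.rank R (Fx ρ K) := by
  let φ : Fx ρ H →ₗ[R] Fx ρ K :=
    LinearMap.codRestrict _ ((ρ g).comp (Fx ρ H).subtype) (fun x k hk => by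
      change ρ k (ρ g x.1) = ρ g x.1
      have h2 : ρ (g⁻¹ * k * g) x.1 = x.1 := x.2 _ (hK k hk)
      conv_rhs => rw [← h2]
      change (ρ k * ρ g) x.1 = (ρ g * ρ (g⁻¹ * k * g)) x.1
      rw [← map_mul, ← map_mul]
      congr 2
      group)
  have hφ : Function.Injective φ := by
    rw [← LinearMap.ker_eq_bot, LinearMap.ker_eq_bot']
    intro x hx
    have h2 : ρ g x.1 = 0 := congrArg Subtype.val hx
    apply Subtype.ext
    have h3 : (ρ g⁻¹ * ρ g) x.1 = 0 := by
      change ρ g⁻¹ (ρ g x.1) = 0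
      rw [h2, map_zero]
    rw [← map_mul, inv_mul_cancel, map_one] at h3
    exact h3
  exact LinearMap.rank_le_of_injective φ hφ

end fx

section field

variable {k A : Type} [Field k] [Field A] [Algebra k A] [IsGalois k A]
variable {R : Type} [CommRing R] [IsDomain R] [TopologicalSpace R] [IsTopologicalRing R]

/-- The rank over the intermediate field `K`. -/
noncomputable def rkF (κ : (A ≃ₐ[k] A) →* R) (F : Set (Subgroup (A ≃ₐ[k] A)))
    (K : IntermediateField k A) : Cardinal.{0} := Module.rank R (E κ F K.fixingSubgroup)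

/-- Stability of the family of local groups under conjugation. -/
def Stab {G : Type} [Group G] (F : Set (Subgroup G)) : Prop :=
  ∀ D ∈ F, ∀ g : G, ∃ D' ∈ F, ∀ σ ∈ D, g⁻¹ * σ * g ∈ D'

/-- The degrees of the finite extensions in `Ω` are not zero in `R`. -/
def Deg (R : Type) [CommRing R] (Ω : IntermediateField k A) : Prop :=
  ∀ K ≤ Ω, FiniteDimensional k K → (finrank k K : R) ≠ 0

theorem exists_rep (hA : S_A) {κ : (A ≃ₐ[k] A) →* R} {F : Set (Subgroup (A ≃ₐ[k] A))}
    (hF : Stab F) {Ω : IntermediateField k A} (hd : Deg R Ω) (L : IntermediateField k A)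
    (hL : L ≤ Ω) (hLf : FiniteDimensional k L) (hLn : Normal k L) :
    ∃ (S : Type) (_ : AddCommGroup S) (_ : Module R S) (_ : IsTorsionFree R S)
      (ρ : (A ≃ₐ[k] A) →* Module.End R S), (∀ g ∈ L.fixingSubgroup, ρ g = 1) ∧
      ∀ H : Subgroup (A ≃ₐ[k] A), L.fixingSubgroup ≤ H →
        Module.rank R (E κ F H) = Module.rank R (Fx ρ H) := by
  haveI : IsGalois k L := IsGalois.mk
  have hN : L.fixingSubgroup.Normal := (InfiniteGalois.normal_iff_isGalois _).2 inferInstance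
  have hi : L.fixingSubgroup.index = finrank k L := by
    rw [finrank_eq_fixingSubgroup_index]
  exact hA R (A ≃ₐ[k] A) κ F hF L.fixingSubgroup hN (IntermediateField.fixingSubgroup_isOpen _)
    (by rw [hi]; exact finrank_pos.ne') (by rw [hi]; exact hd L hL hLf)

theorem exists_normal' {Ω : IntermediateField k A} (hn : Normal k Ω) (K : IntermediateField k A)
    (hK : K ≤ Ω) (hKf : FiniteDimensional k K) :
    ∃ L ≤ Ω, FiniteDimensional k L ∧ Normal k L ∧ K ≤ L := by
  refine ⟨normalClosure k K A, ?_, inferInstance, inferInstance,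
    IntermediateField.le_normalClosure K⟩
  exact IntermediateField.normalClosure_le_iff_of_normal.2 hK

variable (hA : S_A) {κ : (A ≃ₐ[k] A) →* R} {F : Set (Subgroup (A ≃ₐ[k] A))}
  (hF : Stab F) {Ω : IntermediateField k A} (hn : Normal k Ω) (hd : Deg R Ω)

include hA hF hn hd

theorem rk_super (K K' : IntermediateField k A) (hK : K ≤ Ω) (hK' : K' ≤ Ω)
    (hf : FiniteDimensional k K) (hf' : FiniteDimensional k K') :
    rkF κ F K + rkF κ F K' ≤ rkF κ F (K ⊔ K') + rkF κ F (K ⊓ K') := by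
  obtain ⟨L, h1, h2, h3, h4⟩ := exists_normal' hn (K ⊔ K') (sup_le hK hK') inferInstance
  obtain ⟨S, _, _, _, ρ, h5, h6⟩ := exists_rep hA (κ := κ) hF hd L h1 h2 h3
  have h7 : L.fixingSubgroup ≤ K.fixingSubgroup :=
    IntermediateField.fixingSubgroup_antitone (le_sup_left.trans h4)
  have h8 : L.fixingSubgroup ≤ K'.fixingSubgroup :=
    IntermediateField.fixingSubgroup_antitone (le_sup_right.trans h4)
  unfold rkF
  rw [fix_inf K K', fixingSubgroup_sup, h6 _ h7, h6 _ h8, h6 _ (le_inf h7 h8),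
    h6 _ (h7.trans le_sup_left)]
  exact fx_super ρ _ _

theorem rk_mono (K K' : IntermediateField k A) (h : K ≤ K') (hK' : K' ≤ Ω)
    (hf' : FiniteDimensional k K') : rkF κ F K ≤ rkF κ F K' := by
  obtain ⟨L, h1, h2, h3, h4⟩ := exists_normal' hn K' hK' hf'
  obtain ⟨S, _, _, _, ρ, h5, h6⟩ := exists_rep hA (κ := κ) hF hd L h1 h2 h3
  have h7 : K'.fixingSubgroup ≤ K.fixingSubgroup := IntermediateField.fixingSubgroup_antitone h
  have h8 : L.fixingSubgroup ≤ K'.fixingSubgroup := IntermediateField.fixingSubgroup_antitone h4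
  unfold rkF
  rw [h6 _ h8, h6 _ (h8.trans h7)]
  exact Submodule.rank_mono (fx_anti ρ h7)

theorem rk_map_le (K : IntermediateField k A) (hK : K ≤ Ω) (hf : FiniteDimensional k K)
    (g : A ≃ₐ[k] A) (hg : K.map g.toAlgHom ≤ Ω) : rkF κ F K ≤ rkF κ F (K.map g.toAlgHom) := by
  haveI : FiniteDimensional k (K.map g.toAlgHom) := inferInstance
  obtain ⟨L, h1, h2, h3, h4⟩ := exists_normal' hn (K ⊔ K.map g.toAlgHom) (sup_le hK hg)
    inferInstance
  obtain ⟨S, _, _, _, ρ, h5, h6⟩ := exists_rep hA (κ := κ) hF hd L h1 h2 h3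
  have h7 : L.fixingSubgroup ≤ K.fixingSubgroup :=
    IntermediateField.fixingSubgroup_antitone (le_sup_left.trans h4)
  have h8 : L.fixingSubgroup ≤ (K.map g.toAlgHom).fixingSubgroup :=
    IntermediateField.fixingSubgroup_antitone (le_sup_right.trans h4)
  unfold rkF
  rw [h6 _ h7, h6 _ h8]
  apply fx_conj ρ g
  intro σ hσ
  rw [IntermediateField.mem_fixingSubgroup_iff] at hσ ⊢
  intro x hx
  have h5 := hσ (g x) ⟨x, hx, rfl⟩
  change g⁻¹ (σ (g x)) = x
  rw [h5]
  exact AlgEquiv.symm_apply_apply g x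

omit [IsDomain R] hA hF hn hd in
/-- `K₁` controls the ranks over all finite extensions of `k` in `Ω`. -/
def Ctl (κ : (A ≃ₐ[k] A) →* R) (F : Set (Subgroup (A ≃ₐ[k] A))) (Ω K₁ : IntermediateField k A) :
    Prop := ∀ K ≤ Ω, FiniteDimensional k K → rkF κ F K = rkF κ F (K ⊓ K₁)

theorem main_bounded :
    (∃ m : ℕ, ∀ K ≤ Ω, FiniteDimensional k K → rkF κ F K ≤ m) ↔
      ∃ K₁ ≤ Ω, FiniteDimensional k K₁ ∧ rkF κ F K₁ < Cardinal.aleph0 ∧ Ctl κ F Ω K₁ := by
  constructor
  · rintro ⟨m, hm⟩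
    obtain ⟨K₀, h1, h2, h3, -⟩ := controlling Ω (rkF κ F) (rk_super hA hF hn hd)
      (rk_mono hA hF hn hd) (rk_map_le hA hF hn hd) m hm
    exact ⟨K₀, h1, h2, (hm K₀ h1 h2).trans_lt Cardinal.natCast_lt_aleph0, h3⟩
  · rintro ⟨K₁, h1, h2, h3, h4⟩
    refine ⟨(rkF κ F K₁).toNat, fun K hK hKf => ?_⟩
    rw [Cardinal.cast_toNat_of_lt_aleph0 h3, h4 K hK hKf]
    exact rk_mono hA hF hn hd _ _ inf_le_right h1 h2

theorem smaller {K₀ K₂ : IntermediateField k A} (h0 : K₀ ≤ Ω) (hf : FiniteDimensional k K₀)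
    (hfin : rkF κ F K₀ < Cardinal.aleph0) (hc : Ctl κ F Ω K₀)
    (hmin : ∀ K₁ ≤ Ω, FiniteDimensional k K₁ → Ctl κ F Ω K₁ → K₀ ≤ K₁)
    (h3 : K₂ ≤ K₀) (h4 : rkF κ F K₂ = rkF κ F K₀) : K₀ ≤ K₂ := by
  haveI : FiniteDimensional k K₂ := fd_of_le h3
  refine hmin K₂ (h3.trans h0) inferInstance ?_
  intro K hK hKf
  rw [hc K hK hKf]
  haveI : FiniteDimensional k (K ⊓ K₀ : IntermediateField k A) := fd_of_le inf_le_left
  have hi : K ⊓ K₀ ≤ Ω := inf_le_left.trans hK
  apply le_antisymm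
  · have h6 := rk_super hA (κ := κ) hF hn hd (K ⊓ K₀) K₂ hi (h3.trans h0) inferInstance
      inferInstance
    have h7 : rkF κ F ((K ⊓ K₀) ⊔ K₂) ≤ rkF κ F K₀ :=
      rk_mono hA hF hn hd _ _ (sup_le inf_le_right h3) h0 hf
    have h8 : (K ⊓ K₀) ⊓ K₂ = K ⊓ K₂ := by
      rw [inf_assoc, inf_eq_right.2 h3]
    rw [h4, h8] at h6
    have h9 := h6.trans (add_le_add_left h7 _)
    exact (Cardinal.add_le_add_iff_of_lt_aleph0 hfin).1 (h9.trans (add_comm _ _).le)
  · exact rk_mono hA hF hn hd _ _ (inf_le_inf_left K h3) hi inferInstance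

omit [IsDomain R] hA hF hn hd in
theorem coprime_bot {K₀ : IntermediateField k A}
    (hc : Ctl κ F Ω K₀) (K : IntermediateField k A) (hK : K ≤ Ω)
    (hKf : FiniteDimensional k K) (hcop : Nat.Coprime (finrank k K) (finrank k K₀)) :
    rkF κ F K = rkF κ F ⊥ := by
  rw [hc K hK hKf]
  have h1 : K ⊓ K₀ = ⊥ := by
    have h2 : finrank k (K ⊓ K₀ : IntermediateField k A) ∣ finrank k K :=
      IntermediateField.finrank_dvd_of_le_right inf_le_left
    have h3 : finrank k (K ⊓ K₀ : IntermediateField k A) ∣ finrank k K₀ :=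
      IntermediateField.finrank_dvd_of_le_right inf_le_right
    have h4 := Nat.dvd_gcd h2 h3
    rw [hcop] at h4
    exact IntermediateField.finrank_eq_one_iff.1 (Nat.dvd_one.1 h4)
  rw [h1]

end field

section ps

variable {k A : Type} [Field k] [Field A] [Algebra k A] [IsGalois k A]
variable {p : ℕ} [hp : Fact p.Prime] [TopologicalSpace (PowerSeries (ZMod p))]
  [IsTopologicalRing (PowerSeries (ZMod p))]

theorem gal_embed (hA : S_A) (hC : S_C) {κ : (A ≃ₐ[k] A) →* PowerSeries (ZMod p)}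
    {F : Set (Subgroup (A ≃ₐ[k] A))} (hF : Stab F) {Ω : IntermediateField k A}
    (hn : Normal k Ω) (hd : ∀ K ≤ Ω, FiniteDimensional k K → ¬ p ∣ finrank k K)
    {K₀ : IntermediateField k A} (h0 : K₀ ≤ Ω) (hf : FiniteDimensional k K₀)
    (hN₀ : Normal k K₀) (hfin : rkF κ F K₀ < Cardinal.aleph0) (hc : Ctl κ F Ω K₀)
    (hmin : ∀ K₁ ≤ Ω, FiniteDimensional k K₁ → Ctl κ F Ω K₁ → K₀ ≤ K₁) :
    ∃ φ : (K₀ ≃ₐ[k] K₀) →* GL (Fin (rkF κ F K₀).toNat) (ZMod p), Function.Injective φ := by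
  have hd' : Deg (PowerSeries (ZMod p)) Ω := by
    intro K hK hKf h
    refine hd K hK hKf ?_
    rw [← CharP.cast_eq_zero_iff (ZMod p) p]
    have h1 := congrArg (PowerSeries.constantCoeff (R := ZMod p)) h
    rwa [map_natCast, map_zero] at h1
  haveI : IsGalois k K₀ := IsGalois.mk
  haveI hN : K₀.fixingSubgroup.Normal := (InfiniteGalois.normal_iff_isGalois _).2 inferInstance
  have hi : K₀.fixingSubgroup.index = finrank k K₀ := by
    rw [finrank_eq_fixingSubgroup_index]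
  have hop : IsOpen (K₀.fixingSubgroup : Set (A ≃ₐ[k] A)) :=
    IntermediateField.fixingSubgroup_isOpen _
  obtain ⟨S, _, _, _, ρ, h5, h6⟩ := exists_rep hA (κ := κ) hF hd' K₀ h0 hf hN₀
  have htop : Fx ρ K₀.fixingSubgroup = ⊤ := by
    rw [eq_top_iff]
    intro x _ h hh
    rw [h5 h hh]
    rfl
  have hrk : rkF κ F K₀ = Module.rank (PowerSeries (ZMod p)) S := by
    unfold rkF
    rw [h6 _ le_rfl, htop, rank_top]
  obtain ⟨φ, hφ⟩ := hC p (A ≃ₐ[k] A) S ρ K₀.fixingSubgroup hN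
    (by rw [hi]; exact finrank_pos.ne') (by rw [hi]; exact hd K₀ h0 hf) (by
      intro g
      refine ⟨fun hg => ?_, h5 g⟩
      by_contra hgN
      set H := K₀.fixingSubgroup ⊔ Subgroup.zpowers g with hH
      have hopH : IsOpen (H : Set (A ≃ₐ[k] A)) := Subgroup.isOpen_mono le_sup_left hop
      have h2 : (fixedField H).fixingSubgroup = H :=
        InfiniteGalois.fixingSubgroup_fixedField (k := k) (K := A)
          ⟨H, Subgroup.isClosed_of_isOpen _ hopH⟩
      have h3 : fixedField H ≤ K₀ := by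
        conv_rhs => rw [← InfiniteGalois.fixedField_fixingSubgroup K₀]
        exact IntermediateField.fixedField_antitone le_sup_left
      have hH' : Fx ρ H = ⊤ := by
        rw [hH, fx_sup, htop, top_inf_eq, eq_top_iff]
        intro x _ h hh
        obtain ⟨n, rfl⟩ := Subgroup.mem_zpowers_iff.1 hh
        have h9 : ρ (g ^ n) = 1 := by
          have h10 : g ^ n ∈ (MonoidHom.ker ρ : Subgroup (A ≃ₐ[k] A)) :=
            zpow_mem (MonoidHom.mem_ker.2 hg) n
          exact MonoidHom.mem_ker.1 h10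
        rw [h9]
        rfl
      have h4 : rkF κ F (fixedField H) = rkF κ F K₀ := by
        rw [hrk]
        unfold rkF
        rw [h2, h6 _ le_sup_left, hH', rank_top]
      have h7 := smaller hA hF hn hd' h0 hf hfin hc hmin h3 h4
      have h8 := IntermediateField.fixingSubgroup_antitone h7
      rw [h2] at h8
      exact hgN (h8 (Subgroup.mem_sup_right (Subgroup.mem_zpowers g))))
    (rkF κ F K₀).toNat (by rw [← hrk, Cardinal.cast_toNat_of_lt_aleph0 hfin])
  have hker : (AlgEquiv.restrictNormalHom K₀ : (A ≃ₐ[k] A) →* (K₀ ≃ₐ[k] K₀)).ker =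
      K₀.fixingSubgroup := IntermediateField.restrictNormalHom_ker K₀
  have hsur : Function.Surjective
      (AlgEquiv.restrictNormalHom K₀ : (A ≃ₐ[k] A) →* (K₀ ≃ₐ[k] K₀)) :=
    AlgEquiv.restrictNormalHom_surjective A
  refine ⟨MonoidHom.liftOfSurjective _ hsur ⟨φ, by rw [hker, hφ]⟩, ?_⟩
  rw [injective_iff_map_eq_one]
  intro y hy
  obtain ⟨g, rfl⟩ := hsur y
  have h1 : MonoidHom.liftOfSurjective _ hsur ⟨φ, by rw [hker, hφ]⟩
    (AlgEquiv.restrictNormalHom K₀ g) = φ g :=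
    MonoidHom.liftOfRightInverse_comp_apply _ _ _ _ g
  rw [h1] at hy
  have h2 : g ∈ φ.ker := hy
  rw [hφ, ← hker] at h2
  exact h2

/-- The abstract main theorem. -/
theorem main (hA : S_A) (hC : S_C) {κ : (A ≃ₐ[k] A) →* PowerSeries (ZMod p)}
    {F : Set (Subgroup (A ≃ₐ[k] A))} (hF : Stab F) (Ω : IntermediateField k A)
    (hn : Normal k Ω) (hd : ∀ K ≤ Ω, FiniteDimensional k K → ¬ p ∣ finrank k K) :
    (∀ K K' : IntermediateField k A, K ≤ Ω → K' ≤ Ω → FiniteDimensional k K →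
      FiniteDimensional k K' →
      rkF κ F K + rkF κ F K' ≤ rkF κ F (K ⊔ K') + rkF κ F (K ⊓ K')) ∧
    ((∃ m : ℕ, ∀ K ≤ Ω, FiniteDimensional k K → rkF κ F K ≤ m) ↔
      ∃ K₁ ≤ Ω, FiniteDimensional k K₁ ∧ rkF κ F K₁ < Cardinal.aleph0 ∧ Ctl κ F Ω K₁) ∧
    ((∃ m : ℕ, ∀ K ≤ Ω, FiniteDimensional k K → rkF κ F K ≤ m) →
      ∃ K₀ ≤ Ω, FiniteDimensional k K₀ ∧ IsGalois k K₀ ∧ Ctl κ F Ω K₀ ∧
        (∀ K₁ ≤ Ω, FiniteDimensional k K₁ → Ctl κ F Ω K₁ → K₀ ≤ K₁) ∧
        (∀ K ≤ Ω, FiniteDimensional k K → Nat.Coprime (finrank k K) (finrank k K₀) →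
          rkF κ F K = rkF κ F ⊥) ∧
        finrank k K₀ ∣ Nat.card (GL (Fin (rkF κ F K₀).toNat) (ZMod p)) ∧
        ∃ φ : (K₀ ≃ₐ[k] K₀) →* GL (Fin (rkF κ F K₀).toNat) (ZMod p), Function.Injective φ) := by
  have hd' : Deg (PowerSeries (ZMod p)) Ω := by
    intro K hK hKf h
    refine hd K hK hKf ?_
    rw [← CharP.cast_eq_zero_iff (ZMod p) p]
    have h1 := congrArg (PowerSeries.constantCoeff (R := ZMod p)) h
    rwa [map_natCast, map_zero] at h1
  refine ⟨rk_super hA hF hn hd', main_bounded hA hF hn hd', ?_⟩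
  rintro ⟨m, hm⟩
  obtain ⟨K₀, h1, h2, h3, h4, h5⟩ := controlling Ω (rkF κ F) (rk_super hA hF hn hd')
      (rk_mono hA hF hn hd') (rk_map_le hA hF hn hd') m hm
  have hN₀ := h5 hn
  haveI : IsGalois k K₀ := IsGalois.mk
  obtain ⟨φ, hφ⟩ := gal_embed hA hC hF hn hd h1 h2 hN₀
    ((hm K₀ h1 h2).trans_lt Cardinal.natCast_lt_aleph0) h3 h4
  refine ⟨K₀, h1, h2, inferInstance, h3, h4, fun K hK hKf hc => coprime_bot h3 K hK hKf hc, ?_,
    φ, hφ⟩
  rw [← IsGalois.card_aut_eq_finrank]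
  exact Subgroup.card_dvd_of_injective φ hφ

end ps

end Pool.Agent.U10.Mu
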